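import Pool.Agent.W2helper53.CS.PA

/-! Piece CS-PC: the cross term is at most the number of pairs negative before positive. -/

set_option autoImplicit false

namespace Pool.Agent.W2helper53.CS

open Pool.Agent.W2helper77.CS

/-- `Σ 1/x` -/
noncomputable def H (r : List ℕ) : ℝ := (r.map fun x : ℕ => 1 / (x : ℝ)).sum

theorem H_nil : H [] = 0 := by simp [H]

theorem H_cons (x : ℕ) (r : List ℕ) : H (x :: r) = 1 / (x : ℝ) + H r := by simp [H]

theorem H_append (r s : List ℕ) : H (r ++ s) = H r + H s := by simp [H]

theorem H_nonneg (r : List ℕ) : 0 ≤ H r := by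
  apply List.sum_nonneg
  intro y hy
  simp only [List.mem_map] at hy
  obtain ⟨x, -, rfl⟩ := hy
  positivity

theorem H_rep {k : ℕ} (hk : 0 < k) : H (List.replicate k k) = 1 := by
  have : (k : ℝ) ≠ 0 := by positivity
  simp [H, List.map_replicate, List.sum_replicate, this]

theorem crs_block (c : ℕ) (X Y : List ℕ) : ∀ (r : List ℕ) (A : ℝ),
    crs A (r ++ X) (List.replicate r.length c ++ Y) ≤
      r.length * ((A + H r) / c) + crs (A + H r) X Y
  | [], A => by simp [H_nil]
  | x :: r, A => by
    have ih := crs_block c X Y r (A + 1 / (x : ℝ))
    have hr := H_nonneg r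
    rw [List.length_cons, List.replicate_succ, List.cons_append, List.cons_append, crs, H_cons]
    have h1 : (A + 1 / (x : ℝ)) / c ≤ (A + (1 / (x : ℝ) + H r)) / c := by
      gcongr
      linarith
    have h2 : A + (1 / (x : ℝ) + H r) = A + 1 / (x : ℝ) + H r := by ring
    rw [h2] at h1 ⊢
    push_cast
    linarith

theorem crs_nil (A : ℝ) (X : List ℕ) : crs A X [] = 0 := by
  cases X <;> rfl

theorem pc_aux : ∀ (L : List ℤ) (r : List ℕ) (A : ℝ) (i : ℕ), (∀ v ∈ L, v ≠ 0) →
    A + H r ≤ i → (∀ j, (L.take j).sum ≤ r.length) →
    crs A (r ++ blk (neg L)) (blk (pos L)) ≤ i * (L.countP fun b => 0 < b : ℕ) + xcr L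
  | [], r, A, i, _, _, _ => by
    simp [neg, pos, blk, crs_nil, xcr]
  | a :: l, r, A, i, h, hA, hs => by
    have hl : ∀ v ∈ l, v ≠ 0 := fun v hv => h v (List.mem_cons_of_mem _ hv)
    have ha : a ≠ 0 := h a List.mem_cons_self
    rcases lt_or_gt_of_ne ha with ha | ha
    · have hk : 0 < a.natAbs := by omega
      have h1 := pc_aux l (r ++ List.replicate a.natAbs a.natAbs) A (i + 1) hl
        (by rw [H_append, H_rep hk]; push_cast; linarith)
        (fun j => by
          have := hs (j + 1)
          rw [List.take_succ_cons, List.sum_cons] at this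
          rw [List.length_append, List.length_replicate]
          push_cast
          rw [abs_of_neg ha]
          linarith)
      have h2 : blk (neg (a :: l)) = List.replicate a.natAbs a.natAbs ++ blk (neg l) := by
        rw [neg_cons_neg l ha, blk, List.flatMap_cons, ← blk]
      rw [h2, pos_cons_neg l ha, ← List.append_assoc]
      refine h1.trans (le_of_eq ?_)
      have h3 : ¬ 0 < a := by omega
      rw [xcr, if_pos ha, List.countP_cons]
      simp only [h3, decide_false, Bool.false_eq_true, if_false]
      push_cast
      ring
    · have h3 : ¬ a < 0 := by omega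
      have hk : 0 < a.natAbs := by omega
      have hlen : a.natAbs ≤ r.length := by
        have := hs 1
        simp at this
        omega
      have hr : r = r.take a.natAbs ++ r.drop a.natAbs := (List.take_append_drop _ _).symm
      have hrl : (r.take a.natAbs).length = a.natAbs := by
        rw [List.length_take]; omega
      have hH : H r = H (r.take a.natAbs) + H (r.drop a.natAbs) := by
        rw [← H_append, List.take_append_drop]
      have h1 := pc_aux l (r.drop a.natAbs) (A + H (r.take a.natAbs)) i hl
        (by linarith)
        (fun j => by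
          have := hs (j + 1)
          rw [List.take_succ_cons, List.sum_cons] at this
          rw [List.length_drop]
          omega)
      have h2 : blk (pos (a :: l)) = List.replicate a.natAbs a.natAbs ++ blk (pos l) := by
        rw [pos_cons_pos l ha, blk, List.flatMap_cons, ← blk]
      have h4 := crs_block a.natAbs (r.drop a.natAbs ++ blk (neg l)) (blk (pos l))
        (r.take a.natAbs) A
      rw [hrl, ← List.append_assoc, List.take_append_drop] at h4
      rw [h2, neg_cons_pos l ha]
      have h5 : (a.natAbs : ℝ) * ((A + H (r.take a.natAbs)) / a.natAbs) ≤ i := by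
        have : (a.natAbs : ℝ) ≠ 0 := by positivity
        rw [mul_div_cancel₀ _ this]
        have := H_nonneg (r.drop a.natAbs)
        linarith
      rw [xcr, if_neg h3, List.countP_cons]
      simp only [ha, decide_true, if_true]
      push_cast
      linarith

theorem pc : S_PC := by
  intro L h hs
  have := pc_aux L [] 0 0 h (by simp [H_nil]) (fun j => by simpa using hs j)
  simpa using this

end Pool.Agent.W2helper53.CS
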