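import Pool.Agent.W2helper77.CS.Stm

/-! Piece CS-PA: bookkeeping. -/

set_option autoImplicit false

namespace Pool.Agent.W2helper53.CS

open Pool.Agent.W2helper77.CS

theorem neg_cons_neg {a : ℤ} (l : List ℤ) (h : a < 0) : neg (a :: l) = a.natAbs :: neg l := by
  simp [neg, h]

theorem neg_cons_pos {a : ℤ} (l : List ℤ) (h : 0 < a) : neg (a :: l) = neg l := by
  have : ¬ a < 0 := by omega
  simp [neg, this]

theorem pos_cons_pos {a : ℤ} (l : List ℤ) (h : 0 < a) : pos (a :: l) = a.natAbs :: pos l := by
  simp [pos, h]

theorem pos_cons_neg {a : ℤ} (l : List ℤ) (h : a < 0) : pos (a :: l) = pos l := by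
  have : ¬ 0 < a := by omega
  simp [pos, this]

theorem cnt_neg {a : ℤ} (ha : a < 0) : ∀ l : List ℤ, (∀ v ∈ l, v ≠ 0) →
    l.countP (fun b => a < b) = (neg l).countP (fun b => b < a.natAbs) + l.countP (fun b => 0 < b)
  | [], _ => by simp [neg]
  | c :: l, h => by
    have ih := cnt_neg ha l (fun v hv => h v (List.mem_cons_of_mem _ hv))
    have hc : c ≠ 0 := h c List.mem_cons_self
    rcases lt_or_gt_of_ne hc with hc | hc
    · rw [neg_cons_neg l hc, List.countP_cons, List.countP_cons, List.countP_cons, ih]
      have h1 : ¬ 0 < c := by omega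
      by_cases h2 : a < c
      · have h3 : c.natAbs < a.natAbs := by omega
        simp only [h1, h2, h3, decide_true, decide_false, if_true, Bool.false_eq_true, if_false]
        omega
      · have h3 : ¬ c.natAbs < a.natAbs := by omega
        simp only [h1, h2, h3, decide_false, Bool.false_eq_true, if_false]
        omega
    · rw [neg_cons_pos l hc, List.countP_cons, List.countP_cons, ih]
      have h2 : a < c := by omega
      simp only [hc, h2, decide_true, if_true]
      omega

theorem cnt_pos {a : ℤ} (ha : 0 < a) : ∀ l : List ℤ, (∀ v ∈ l, v ≠ 0) →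
    l.countP (fun b => a < b) = (pos l).countP (fun b => a.natAbs < b)
  | [], _ => by simp [pos]
  | c :: l, h => by
    have ih := cnt_pos ha l (fun v hv => h v (List.mem_cons_of_mem _ hv))
    have hc : c ≠ 0 := h c List.mem_cons_self
    rcases lt_or_gt_of_ne hc with hc | hc
    · rw [pos_cons_neg l hc, List.countP_cons, ih]
      have h2 : ¬ a < c := by omega
      simp only [h2, decide_false, Bool.false_eq_true, if_false]
      omega
    · rw [pos_cons_pos l hc, List.countP_cons, List.countP_cons, ih]
      by_cases h2 : a < c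
      · have h3 : a.natAbs < c.natAbs := by omega
        simp only [h2, h3, decide_true, if_true]
      · have h3 : ¬ a.natAbs < c.natAbs := by omega
        simp only [h2, h3, decide_false, Bool.false_eq_true, if_false]

theorem pa1 : ∀ L : List ℤ, (∀ v ∈ L, v ≠ 0) → asc L = dsc (neg L) + ascN (pos L) + xcr L
  | [], _ => by simp [neg, pos, asc, dsc, ascN, xcr]
  | a :: l, h => by
    have hl : ∀ v ∈ l, v ≠ 0 := fun v hv => h v (List.mem_cons_of_mem _ hv)
    have ih := pa1 l hl
    have ha : a ≠ 0 := h a List.mem_cons_self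
    rcases lt_or_gt_of_ne ha with ha | ha
    · rw [neg_cons_neg l ha, pos_cons_neg l ha, asc, dsc, xcr, if_pos ha, cnt_neg ha l hl, ih]
      omega
    · have h0 : ¬ a < 0 := by omega
      rw [neg_cons_pos l ha, pos_cons_pos l ha, asc, ascN, xcr, if_neg h0, cnt_pos ha l hl, ih]
      omega

theorem neg_append (l₁ l₂ : List ℤ) : neg (l₁ ++ l₂) = neg l₁ ++ neg l₂ := by
  simp [neg]

theorem pos_append (l₁ l₂ : List ℤ) : pos (l₁ ++ l₂) = pos l₁ ++ pos l₂ := by
  simp [pos]

theorem neg_vals (m : ℕ) : neg (vals m) = (List.range m).map fun k => 2 * k + 1 := by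
  induction m with
  | zero => simp [vals, neg]
  | succ m ih =>
    have : vals (m + 1) = vals m ++ [(2 * (m : ℤ) + 1), -(2 * (m : ℤ) + 1)] := by
      simp [vals, List.range_succ, List.flatMap_append]
    rw [this, neg_append, ih, List.range_succ, List.map_append,
      neg_cons_pos _ (by omega), neg_cons_neg _ (by omega)]
    congr 1

theorem pos_vals (m : ℕ) : pos (vals m) = (List.range m).map fun k => 2 * k + 1 := by
  induction m with
  | zero => simp [vals, pos]
  | succ m ih =>
    have : vals (m + 1) = vals m ++ [(2 * (m : ℤ) + 1), -(2 * (m : ℤ) + 1)] := by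
      simp [vals, List.range_succ, List.flatMap_append]
    rw [this, pos_append, ih, List.range_succ, List.map_append,
      pos_cons_pos _ (by omega), pos_cons_neg _ (by omega)]
    congr 1

theorem neg_perm {L L' : List ℤ} (h : L.Perm L') : (neg L).Perm (neg L') :=
  (h.filter _).map _

theorem pos_perm {L L' : List ℤ} (h : L.Perm L') : (pos L).Perm (pos L') :=
  (h.filter _).map _

theorem blk_perm {l l' : List ℕ} (h : l.Perm l') : (blk l).Perm (blk l') :=
  h.flatMap_right _

theorem nodup_odd (m : ℕ) : ((List.range m).map fun k => 2 * k + 1).Nodup :=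
  List.nodup_range.map (fun a b h => by omega)

theorem pa : S_PA := by
  refine ⟨pa1, ?_⟩
  intro m L hL
  have hn := neg_perm hL
  have hp := pos_perm hL
  rw [neg_vals] at hn
  rw [pos_vals] at hp
  refine ⟨⟨blk_perm hn, blk_perm hp⟩, ?_, ?_, ?_, ?_, ?_⟩
  · intro v hv
    have := hL.subset hv
    simp only [vals, List.mem_flatMap, List.mem_range, List.mem_cons, List.not_mem_nil,
      or_false] at this
    obtain ⟨k, -, hk⟩ := this
    omega
  · exact hn.symm.nodup (nodup_odd m)
  · exact hp.symm.nodup (nodup_odd m)
  · intro k hk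
    have := hn.subset hk
    simp only [List.mem_map, List.mem_range] at this
    obtain ⟨a, -, rfl⟩ := this
    omega
  · intro k hk
    have := hp.subset hk
    simp only [List.mem_map, List.mem_range] at this
    obtain ⟨a, -, rfl⟩ := this
    omega

end Pool.Agent.W2helper53.CS
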