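import Pool.Agent.W2helper92.CS.Stm

/-!
# Project GC (helper92), pieces U2 and U3: counts of lattice points
-/

set_option autoImplicit false

namespace Pool.Agent.W2helper53.CS.U23

open Finset Filter Topology
open Pool.Agent.W2helper92.CS

theorem count (P : ℤ × ℤ → Prop) [DecidablePred P] (M n : ℕ) (lo hi : ℤ → ℤ)
    (h : ∀ x y : ℤ, ((x, y) ∈ Sq M ∧ P (x, y)) ↔
      (|x - y| ≤ (n : ℤ) ∧ lo (x - y) ≤ x ∧ x ≤ hi (x - y)))
    (hle : ∀ u : ℤ, |u| ≤ (n : ℤ) → lo u ≤ hi u + 1) :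
    ((((Sq M).filter P).card : ℕ) : ℤ) = ∑ u ∈ Icc (-(n : ℤ)) n, (hi u + 1 - lo u) := by
  classical
  have hmaps : Set.MapsTo (fun s : ℤ × ℤ => s.1 - s.2) ((Sq M).filter P : Set (ℤ × ℤ))
      (Icc (-(n : ℤ)) n : Set ℤ) := by
    rintro ⟨x, y⟩ hs
    rw [Finset.mem_coe, Finset.mem_filter] at hs
    rw [Finset.mem_coe, Finset.mem_Icc]
    exact abs_le.1 ((h x y).1 hs).1
  rw [Finset.card_eq_sum_card_fiberwise hmaps]
  push_cast
  refine Finset.sum_congr rfl fun u hu => ?_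
  rw [Finset.mem_Icc] at hu
  have hu' : |u| ≤ (n : ℤ) := abs_le.2 hu
  have hcard : ((Sq M).filter P |>.filter fun s : ℤ × ℤ => s.1 - s.2 = u).card =
      (Icc (lo u) (hi u)).card := by
    refine Finset.card_bij' (fun s _ => s.1) (fun x _ => (x, x - u)) ?_ ?_ ?_ ?_
    · rintro ⟨x, y⟩ hs
      rw [Finset.mem_filter, Finset.mem_filter] at hs
      have h1 := (h x y).1 hs.1
      have h2 : x - y = u := hs.2
      rw [h2] at h1
      rw [Finset.mem_Icc]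
      exact h1.2
    · intro x hx
      rw [Finset.mem_Icc] at hx
      have e : x - (x - u) = u := by ring
      rw [Finset.mem_filter, Finset.mem_filter]
      refine ⟨(h x (x - u)).2 ?_, e⟩
      rw [e]
      exact ⟨hu', hx⟩
    · rintro ⟨x, y⟩ hs
      rw [Finset.mem_filter] at hs
      have h2 : x - y = u := hs.2
      have h3 : x - u = y := by omega
      simp only [h3]
    · intro x _
      rfl
  rw [hcard, Int.card_Icc, Int.toNat_of_nonneg (by have := hle u hu'; omega)]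

theorem sum_sym (f : ℤ → ℤ) (n : ℕ) : ∑ u ∈ Icc (-(n : ℤ)) n, f u =
    f 0 + ∑ k ∈ range n, (f (k + 1) + f (-(k + 1))) := by
  induction n with
  | zero => simp
  | succ n ih =>
    have e : Icc (-((n + 1 : ℕ) : ℤ)) ((n + 1 : ℕ) : ℤ) =
        insert ((n : ℤ) + 1) (insert (-((n : ℤ) + 1)) (Icc (-(n : ℤ)) n)) := by
      ext u
      simp only [Finset.mem_insert, Finset.mem_Icc]
      push_cast
      omega
    rw [e, Finset.sum_insert, Finset.sum_insert, ih, Finset.sum_range_succ]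
    · ring
    · rw [Finset.mem_Icc]
      omega
    · rw [Finset.mem_insert, Finset.mem_Icc]
      omega

theorem range_three (g : ℕ → ℤ) (j : ℕ) : ∑ k ∈ range (3 * (j + 1)), g k =
    ∑ k ∈ range (3 * j), g k + (g (3 * j) + g (3 * j + 1) + g (3 * j + 2)) := by
  have e : 3 * (j + 1) = 3 * j + 1 + 1 + 1 := by ring
  rw [e, Finset.sum_range_succ, Finset.sum_range_succ, Finset.sum_range_succ]
  ring

theorem p_u2 : P_U2 := by
  intro M c hM
  have h := count (fun s : ℤ × ℤ => |s.1 - s.2| ≤ 3 * (c : ℤ) ∧ |2 * s.1 + s.2| ≤ 3 * (c : ℤ))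
    M (3 * c) (fun u => -(c : ℤ) + (u + 2) / 3) (fun u => (c : ℤ) + u / 3) (by
      intro x y
      simp only [Sq, Finset.mem_product, Finset.mem_Icc, abs_le]
      push_cast
      constructor
      · rintro ⟨-, h1, h2⟩
        refine ⟨h1, ?_, ?_⟩ <;> omega
      · rintro ⟨h1, h2, h3⟩
        refine ⟨⟨⟨?_, ?_⟩, ?_, ?_⟩, ⟨?_, ?_⟩, ?_, ?_⟩ <;> omega)
    (by
      intro u _
      omega)
  rw [h, sum_sym]
  have key : ∀ j : ℕ, ∑ k ∈ range (3 * j), ((c : ℤ) + ((k : ℤ) + 1) / 3 + 1 -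
      (-(c : ℤ) + ((k : ℤ) + 1 + 2) / 3) + ((c : ℤ) + -((k : ℤ) + 1) / 3 + 1 -
      (-(c : ℤ) + (-((k : ℤ) + 1) + 2) / 3))) = j * (12 * c + 2) := by
    intro j
    induction j with
    | zero => simp
    | succ j ih =>
      rw [range_three, ih]
      have e : ∀ a b : ℤ, a = b → (j : ℤ) * (12 * c + 2) + a = (j : ℤ) * (12 * c + 2) + b :=
        fun a b hab => by rw [hab]
      rw [e _ (12 * (c : ℤ) + 2) (by push_cast; omega)]
      push_cast
      ring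
  rw [key c]
  norm_num
  ring

theorem p_u3 : P_U3 := by
  intro M c hM
  have h := count (fun s : ℤ × ℤ => |s.1 - s.2| ≤ 3 * (c : ℤ) ∧ |2 * s.1 + s.2| ≤ 3 * (c : ℤ) ∧
      |s.1 + 2 * s.2| ≤ 3 * (c : ℤ))
    M (3 * c) (fun u => if 0 ≤ u then -(c : ℤ) + (2 * u + 2) / 3 else -(c : ℤ) + (u + 2) / 3)
    (fun u => if 0 ≤ u then (c : ℤ) + u / 3 else (c : ℤ) + (2 * u) / 3) (by
      intro x y
      simp only [Sq, Finset.mem_product, Finset.mem_Icc, abs_le]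
      push_cast
      constructor
      · rintro ⟨-, h1, h2, h3⟩
        refine ⟨h1, ?_, ?_⟩ <;> split_ifs <;> omega
      · rintro ⟨h1, h2, h3⟩
        split_ifs at h2 h3
        · refine ⟨⟨⟨?_, ?_⟩, ?_, ?_⟩, ⟨?_, ?_⟩, ⟨?_, ?_⟩, ?_, ?_⟩ <;> omega
        · refine ⟨⟨⟨?_, ?_⟩, ?_, ?_⟩, ⟨?_, ?_⟩, ⟨?_, ?_⟩, ?_, ?_⟩ <;> omega)
    (by
      intro u hu
      rw [abs_le] at hu
      push_cast at hu
      split_ifs <;> omega)
  rw [h, sum_sym]
  have key : ∀ j : ℕ, ∑ k ∈ range (3 * j), ((if 0 ≤ (k : ℤ) + 1 then (c : ℤ) + ((k : ℤ) + 1) / 3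
      else (c : ℤ) + (2 * ((k : ℤ) + 1)) / 3) + 1 -
      (if 0 ≤ (k : ℤ) + 1 then -(c : ℤ) + (2 * ((k : ℤ) + 1) + 2) / 3
      else -(c : ℤ) + ((k : ℤ) + 1 + 2) / 3) +
      ((if 0 ≤ -((k : ℤ) + 1) then (c : ℤ) + -((k : ℤ) + 1) / 3
      else (c : ℤ) + (2 * -((k : ℤ) + 1)) / 3) + 1 -
      (if 0 ≤ -((k : ℤ) + 1) then -(c : ℤ) + (2 * -((k : ℤ) + 1) + 2) / 3
      else -(c : ℤ) + (-((k : ℤ) + 1) + 2) / 3))) =
      j * (12 * c - 2) - 3 * (j * (j - 1)) := by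
    intro j
    induction j with
    | zero => simp
    | succ j ih =>
      rw [range_three, ih]
      have h1 : ∀ k : ℕ, (0 : ℤ) ≤ (k : ℤ) + 1 := fun k => by omega
      have h2 : ∀ k : ℕ, ¬ (0 : ℤ) ≤ -((k : ℤ) + 1) := fun k => by omega
      simp only [h1, h2, if_true, if_false]
      have e : ∀ a b z : ℤ, a = b → z + a = z + b := fun a b z hab => by rw [hab]
      rw [e _ (12 * (c : ℤ) - 2 - 6 * j) _ (by push_cast; omega)]
      push_cast
      ring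
  rw [key c]
  norm_num
  ring

end Pool.Agent.W2helper53.CS.U23
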